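import Pool.Agent.Results.MP_71ac24_nt.SelfTranslates

/-!
# Montgomery's bound for the self-translates of almost every dilate of a separated sequence

Let `s_0, s_1, …` be real numbers with `|s_k - s_l| ≥ 1` for `k ≠ l`. For almost every `x ≥ 1`, for all `ε > 0` and `B`:
for all large `N`, all `K ≤ N ^ B`, all coefficients `|a_n| ≤ 1` and all real `v`, with
`D(y) = ∑_{n ≤ N} a_n n ^ (iy)` and `S = {x s_k : k < K}`, all but `K / R` of the translates `v - u + S`, `u ∈ S`, satisfy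
`∑_{t ∈ v - u + S} |D(t)|² ≤ R N ^ ε (N + |S|) N`.
-/

set_option autoImplicit false

namespace Pool.Agent.Results.MP_71ac24_nt.AlmostEveryDilate

open Finset MeasureTheory Filter

open scoped ENNReal

/-- `|D(y)|²`, where `D(y)` is the sum of `a_n n ^ (iy)` over `1 ≤ n ≤ N` -/
noncomputable def D2 (N : ℕ) (a : ℕ → ℂ) (y : ℝ) : ℝ :=
  ‖∑ n ∈ Finset.Icc 1 N, a n * (n : ℂ) ^ ((y : ℂ) * Complex.I)‖ ^ 2

/-- For ALL coefficients `|a_n| ≤ 1` and ALL real `v`: the sum of `|D(v + x(t - u))|²` over `t, u ∈ A` is at most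
`N ^ ε (N + |A|) N |A|`, and for `R > 0` at most `|A| / R` of the `u ∈ A` violate
`∑_{t ∈ A} |D(v - xu + xt)|² ≤ R N ^ ε (N + |A|) N`. -/
def SelfBound (A : Finset ℝ) (N : ℕ) (ε x : ℝ) : Prop :=
  ∀ (a : ℕ → ℂ) (v : ℝ), (∀ n, ‖a n‖ ≤ 1) →
    (∑ u ∈ A, ∑ t ∈ A, D2 N a (v + x * (t - u)) ≤ (N : ℝ) ^ ε * ((N : ℝ) + A.card) * N * A.card) ∧
    ∀ R : ℝ, 0 < R → ∀ E ⊆ A, (∀ u ∈ E, R * ((N : ℝ) ^ ε * ((N : ℝ) + A.card) * N) <
      ∑ t ∈ A, D2 N a (v + x * (t - u))) → R * (E.card : ℝ) ≤ A.card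

lemma D2_nonneg (N : ℕ) (a : ℕ → ℂ) (y : ℝ) : 0 ≤ D2 N a y := by unfold D2; positivity

lemma markov {A : Finset ℝ} {Z : ℝ} (hZ : 0 < Z) {f : ℝ → ℝ} (hf : ∀ u ∈ A, 0 ≤ f u)
    (h : ∑ u ∈ A, f u ≤ Z * A.card) {R : ℝ} {E : Finset ℝ} (hE : E ⊆ A) (hl : ∀ u ∈ E, R * Z < f u) :
    R * (E.card : ℝ) ≤ A.card := by
  have h1 : (E.card : ℝ) * (R * Z) ≤ Z * A.card := by
    calc (E.card : ℝ) * (R * Z) = ∑ u ∈ E, R * Z := by rw [sum_const, nsmul_eq_mul]
      _ ≤ ∑ u ∈ E, f u := sum_le_sum fun u hu => (hl u hu).le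
      _ ≤ ∑ u ∈ A, f u := sum_le_sum_of_subset_of_nonneg hE fun u hu _ => hf u hu
      _ ≤ _ := h
  have h2 : (R * E.card) * Z ≤ A.card * Z := by linarith
  exact le_of_mul_le_mul_right h2 hZ

lemma selfBound_of {A : Finset ℝ} {N : ℕ} {ε x : ℝ} (hN : 1 ≤ N)
    (h : ∀ (a : ℕ → ℂ) (v : ℝ), (∀ n, ‖a n‖ ≤ 1) →
      ∑ u ∈ A, ∑ t ∈ A, D2 N a (v + x * (t - u)) ≤ (N : ℝ) ^ ε * ((N : ℝ) + A.card) * N * A.card) :
    SelfBound A N ε x := by
  intro a v ha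
  have hNr : (0 : ℝ) < N := by exact_mod_cast hN
  refine ⟨h a v ha, fun R _ E hE hl => ?_⟩
  exact markov (Z := (N : ℝ) ^ ε * ((N : ℝ) + A.card) * N) (by positivity)
    (fun u _ => sum_nonneg fun t _ => D2_nonneg _ _ _) (h a v ha) hE hl

lemma asym (B : ℕ) {δ : ℝ} (hδ : 0 < δ) :
    ∀ᶠ N : ℝ in atTop, 9 * ((1 + B * Real.log N) * (1 + Real.log N)) ≤ N ^ δ := by
  have h1 := (isLittleO_log_rpow_atTop (show 0 < δ / 4 by linarith)).bound one_pos
  have h2 : ∀ᶠ N : ℝ in atTop, 9 * ((1 + B : ℝ) * 2) ≤ N ^ (δ / 2) :=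
    (tendsto_rpow_atTop (show 0 < δ / 2 by linarith)).eventually_ge_atTop _
  filter_upwards [h1, h2, eventually_ge_atTop 1] with N g1 g2 g3
  have hN0 : 0 < N := by linarith
  set z : ℝ := N ^ (δ / 4) with hz
  have hz1 : 1 ≤ z := Real.one_le_rpow g3 (by linarith)
  have hlog0 : 0 ≤ Real.log N := Real.log_nonneg g3
  have hlog : Real.log N ≤ z := by
    rw [one_mul, Real.norm_of_nonneg hlog0, Real.norm_of_nonneg (by positivity)] at g1
    exact g1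
  have hB : (0 : ℝ) ≤ B := Nat.cast_nonneg _
  have e1 : 1 + B * Real.log N ≤ (1 + B) * z := by nlinarith
  have e2 : 1 + Real.log N ≤ 2 * z := by linarith
  have e3 : N ^ (δ / 2) = z * z := by rw [hz, ← Real.rpow_add hN0]; congr 1; ring
  have e4 : N ^ δ = N ^ (δ / 2) * (z * z) := by rw [← e3, ← Real.rpow_add hN0]; congr 1; ring
  rw [e4]
  calc 9 * ((1 + B * Real.log N) * (1 + Real.log N)) ≤ 9 * (((1 + B) * z) * (2 * z)) := by
        apply mul_le_mul_of_nonneg_left _ (by norm_num)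
        exact mul_le_mul e1 e2 (by linarith) (by positivity)
    _ = 9 * ((1 + B : ℝ) * 2) * (z * z) := by ring
    _ ≤ _ := mul_le_mul_of_nonneg_right g2 (by positivity)

lemma fam (F : ℕ → Finset (Finset ℝ)) (hF : ∀ m, ∀ A ∈ F m, ∀ s ∈ A, ∀ t ∈ A, s ≠ t → 1 ≤ |s - t|)
    (w : ℕ → ℝ) (hw : ∀ m, 0 < w m) (hs : Summable fun m => ((F m).card : ℝ) * w m) :
    ∀ᵐ x : ℝ, 1 ≤ x → ∀ᶠ m : ℕ in atTop, ∀ A ∈ F m, ∀ (a : ℕ → ℂ) (v : ℝ), (∀ n, ‖a n‖ ≤ 1) →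
      ∑ u ∈ A, ∑ t ∈ A, D2 (2 ^ m) a (v + x * (t - u)) ≤
        ((2 ^ m : ℕ) : ℝ) * (A.card : ℝ) ^ 2 + 9 / w m * ((2 ^ m : ℕ) : ℝ) ^ 2 * A.card * (1 + Real.log A.card) *
          (1 + Real.log ((2 ^ m : ℕ) : ℝ)) := by
  classical
  have hex : ∀ (i m : ℕ) (A : Finset ℝ), ∃ E : Set ℝ, A ∈ F m → (volume E ≤ ENNReal.ofReal (w m * 2 ^ i) ∧
      ∀ x ∈ Set.Icc ((2 : ℝ) ^ i) (2 * 2 ^ i), x ∉ E → ∀ (a : ℕ → ℂ) (v : ℝ), (∀ n, ‖a n‖ ≤ 1) →
      ∑ u ∈ A, ∑ t ∈ A, D2 (2 ^ m) a (v + x * (t - u)) ≤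
        ((2 ^ m : ℕ) : ℝ) * (A.card : ℝ) ^ 2 + 9 / w m * ((2 ^ m : ℕ) : ℝ) ^ 2 * A.card * (1 + Real.log A.card) *
          (1 + Real.log ((2 ^ m : ℕ) : ℝ))) := by
    intro i m A
    by_cases hA : A ∈ F m
    · obtain ⟨E, _, hE2, hE3⟩ := Pool.Agent.Results.MP_71ac24_nt.SelfTranslates.result (2 ^ m) Nat.one_le_two_pow A
        (hF m A hA) (2 ^ i) (w m) (one_le_pow₀ (by norm_num)) (hw m)
      refine ⟨E, fun _ => ⟨hE2, fun x hx hxE a v ha => ?_⟩⟩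
      have h := (hE3 x hx hxE a v ha).1
      rw [sum_comm]
      exact h
    · exact ⟨∅, fun h => absurd h hA⟩
  choose E hE using hex
  have hall : ∀ᵐ x : ℝ, ∀ i : ℕ, ∀ᶠ m : ℕ in atTop, x ∉ ⋃ A ∈ F m, E i m A := by
    rw [ae_all_iff]
    intro i
    apply ae_eventually_notMem
    have h1 : ∀ m, volume (⋃ A ∈ F m, E i m A) ≤ ENNReal.ofReal ((F m).card * w m * 2 ^ i) := by
      intro m
      refine (measure_biUnion_finset_le _ _).trans ?_
      refine (sum_le_sum fun A hA => (hE i m A hA).1).trans ?_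
      rw [sum_const, nsmul_eq_mul, mul_assoc, ENNReal.ofReal_mul (Nat.cast_nonneg _), ENNReal.ofReal_natCast]
    have h2 : Summable fun m => ((F m).card : ℝ) * w m * 2 ^ i := hs.mul_right _
    have h3 : ∑' m : ℕ, ENNReal.ofReal (((F m).card : ℝ) * w m * 2 ^ i) ≠ ∞ := by
      rw [← ENNReal.ofReal_tsum_of_nonneg (fun m => by have := (hw m).le; positivity) h2]
      exact ENNReal.ofReal_ne_top
    exact ne_top_of_le_ne_top h3 (ENNReal.tsum_le_tsum h1)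
  filter_upwards [hall] with x hx hx1
  obtain ⟨i, hi1, hi2⟩ := exists_nat_pow_near hx1 (one_lt_two (α := ℝ))
  filter_upwards [hx i] with m hm A hA a v ha
  refine (hE i m A hA).2 x ⟨hi1, ?_⟩ (fun h => hm (Set.mem_biUnion hA h)) a v ha
  rw [pow_succ] at hi2
  linarith

lemma part1 (B : ℕ) (F : ℕ → Finset (Finset ℝ))
    (hF : ∀ m, ∀ A ∈ F m, A.card ≤ (2 ^ m) ^ B ∧ ∀ s ∈ A, ∀ t ∈ A, s ≠ t → 1 ≤ |s - t|)
    (hs : ∀ δ : ℝ, 0 < δ → Summable fun m : ℕ => ((F m).card : ℝ) * (2 : ℝ) ^ (-(δ * m))) :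
    ∀ᵐ x : ℝ, 1 ≤ x → ∀ ε : ℝ, 0 < ε → ∀ᶠ m : ℕ in atTop, ∀ A ∈ F m, SelfBound A (2 ^ m) ε x := by
  have hall : ∀ᵐ x : ℝ, ∀ q : ℕ, 1 ≤ x → ∀ᶠ m : ℕ in atTop, ∀ A ∈ F m, ∀ (a : ℕ → ℂ) (v : ℝ), (∀ n, ‖a n‖ ≤ 1) →
      ∑ u ∈ A, ∑ t ∈ A, D2 (2 ^ m) a (v + x * (t - u)) ≤
        ((2 ^ m : ℕ) : ℝ) * (A.card : ℝ) ^ 2 + 9 / (2 : ℝ) ^ (-(1 / ((q : ℝ) + 1) / 2 * m)) *
          ((2 ^ m : ℕ) : ℝ) ^ 2 * A.card * (1 + Real.log A.card) * (1 + Real.log ((2 ^ m : ℕ) : ℝ)) := by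
    rw [ae_all_iff]
    intro q
    exact fam F (fun m A hA => (hF m A hA).2) (fun m => (2 : ℝ) ^ (-(1 / ((q : ℝ) + 1) / 2 * m)))
      (fun m => by positivity) (hs _ (by positivity))
  filter_upwards [hall] with x hx hx1 ε hε
  obtain ⟨q, hq⟩ := exists_nat_one_div_lt hε
  have ht : Tendsto (fun m : ℕ => ((2 ^ m : ℕ) : ℝ)) atTop atTop := by
    simp only [Nat.cast_pow, Nat.cast_ofNat]
    exact tendsto_pow_atTop_atTop_of_one_lt one_lt_two
  filter_upwards [hx q hx1, ht.eventually (asym B (show 0 < 1 / ((q : ℝ) + 1) / 2 by positivity))] with m hm g1 A hA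
  have hN1 : 1 ≤ 2 ^ m := Nat.one_le_two_pow
  refine selfBound_of hN1 fun a v ha => (hm A hA a v ha).trans ?_
  set N : ℕ := 2 ^ m with hNdef
  have hNr : (1 : ℝ) ≤ N := by exact_mod_cast hN1
  have hN0 : (0 : ℝ) < N := by linarith
  have hδ : (2 : ℝ) ^ (-(1 / ((q : ℝ) + 1) / 2 * m)) = ((N : ℝ) ^ (1 / ((q : ℝ) + 1) / 2))⁻¹ := by
    rw [Real.rpow_neg (by norm_num), hNdef]
    push_cast
    rw [← Real.rpow_natCast 2 m, ← Real.rpow_mul (by norm_num), mul_comm (m : ℝ)]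
  rw [hδ, div_inv_eq_mul]
  set z : ℝ := (N : ℝ) ^ (1 / ((q : ℝ) + 1) / 2) with hz
  have hz1 : 1 ≤ z := Real.one_le_rpow hNr (by positivity)
  have hcard : (A.card : ℝ) ≤ (N : ℝ) ^ B := by exact_mod_cast (hF m A hA).1
  have hlN : 0 ≤ Real.log N := Real.log_nonneg hNr
  have hlA0 : 0 ≤ Real.log A.card := Real.log_natCast_nonneg _
  have hlA : Real.log A.card ≤ B * Real.log N := by
    rcases Nat.eq_zero_or_pos A.card with h0 | h0
    · rw [h0, Nat.cast_zero, Real.log_zero]; positivity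
    · rw [← Real.log_pow]
      exact Real.log_le_log (by exact_mod_cast h0) hcard
  have hzz : z * z ≤ (N : ℝ) ^ ε := by
    rw [hz, ← Real.rpow_add hN0]
    apply Real.rpow_le_rpow_of_exponent_le hNr
    linarith
  have hK0 : (0 : ℝ) ≤ A.card := Nat.cast_nonneg _
  have k1 : 9 * z * ((1 + Real.log A.card) * (1 + Real.log N)) ≤ z * z := by
    have h2 : 9 * ((1 + Real.log A.card) * (1 + Real.log N)) ≤ z := by
      refine le_trans ?_ g1
      apply mul_le_mul_of_nonneg_left _ (by norm_num)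
      exact mul_le_mul_of_nonneg_right (by linarith) (by linarith)
    nlinarith
  have k2 : 1 ≤ z * z := by nlinarith
  have hKN : (0 : ℝ) ≤ (N : ℝ) * A.card := by positivity
  calc (N : ℝ) * (A.card : ℝ) ^ 2 + 9 * z * (N : ℝ) ^ 2 * A.card * (1 + Real.log A.card) * (1 + Real.log N)
      = (N : ℝ) * A.card * (A.card + (9 * z * ((1 + Real.log A.card) * (1 + Real.log N))) * N) := by ring
    _ ≤ (N : ℝ) * A.card * ((z * z) * A.card + (z * z) * N) := by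
        apply mul_le_mul_of_nonneg_left _ hKN
        apply add_le_add
        · nlinarith
        · exact mul_le_mul_of_nonneg_right k1 hN0.le
    _ = (z * z) * ((N + A.card) * (N * A.card)) := by ring
    _ ≤ (N : ℝ) ^ ε * ((N + A.card) * (N * A.card)) := mul_le_mul_of_nonneg_right hzz (by positivity)
    _ = _ := by ring

lemma D2_ext {N M : ℕ} (h : N ≤ M) (a : ℕ → ℂ) (y : ℝ) :
    D2 M (fun n => if n ≤ N then a n else 0) y = D2 N a y := by
  unfold D2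
  congr 2
  rw [← sum_subset (Icc_subset_Icc_right h) (fun n hn hn' => ?_)]
  · refine sum_congr rfl fun n hn => ?_
    simp only
    rw [if_pos (mem_Icc.1 hn).2]
  · simp only
    rw [if_neg, zero_mul]
    intro hle
    exact hn' (mem_Icc.2 ⟨(mem_Icc.1 hn).1, hle⟩)

/-- **Theorem.** Let `B` be a natural number. (1) For `m ∈ ℕ` let `F m` be a finite set of finite sets `A` of real numbers,
each with `|s - t| ≥ 1` for distinct `s, t ∈ A` and with `|A| ≤ (2 ^ m) ^ B`, such that `∑ |F m| 2 ^ (-δm)` is finite for all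
`δ > 0`. For almost every `x ≥ 1`, for all `ε > 0` and all large `m`, every `A ∈ F m` satisfies `SelfBound A (2 ^ m) ε x`.
(2) Let `s` be a sequence of real numbers with `|s_k - s_l| ≥ 1` for `k ≠ l`. For almost every `x ≥ 1`, for all `ε > 0`, all
large `N` and all `K ≤ N ^ B`, the set `A = {s_0, …, s_(K - 1)}` satisfies `SelfBound A N ε x`. -/
theorem result (B : ℕ) :
    (∀ F : ℕ → Finset (Finset ℝ),
      (∀ m, ∀ A ∈ F m, A.card ≤ (2 ^ m) ^ B ∧ ∀ s ∈ A, ∀ t ∈ A, s ≠ t → 1 ≤ |s - t|) →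
      (∀ δ : ℝ, 0 < δ → Summable fun m : ℕ => ((F m).card : ℝ) * (2 : ℝ) ^ (-(δ * m))) →
      ∀ᵐ x : ℝ, 1 ≤ x → ∀ ε : ℝ, 0 < ε → ∀ᶠ m : ℕ in atTop, ∀ A ∈ F m, SelfBound A (2 ^ m) ε x) ∧
    (∀ s : ℕ → ℝ, (∀ k l, k ≠ l → 1 ≤ |s k - s l|) →
      ∀ᵐ x : ℝ, 1 ≤ x → ∀ ε : ℝ, 0 < ε → ∀ᶠ N : ℕ in atTop, ∀ K : ℕ, K ≤ N ^ B →
        SelfBound ((range K).image s) N ε x) := by
  classical
  refine ⟨part1 B, fun s hsep => ?_⟩
  have hinj : Function.Injective s := by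
    intro k l hkl
    by_contra hne
    have := hsep k l hne
    rw [hkl, sub_self, abs_zero] at this
    linarith
  set F : ℕ → Finset (Finset ℝ) := fun m => (range (B * m + 1)).image (fun i => (range (2 ^ i)).image s) with hFdef
  have hcard : ∀ K : ℕ, ((range K).image s).card = K := fun K => by
    rw [card_image_of_injective _ hinj, card_range]
  have hF : ∀ m, ∀ A ∈ F m, A.card ≤ (2 ^ m) ^ B ∧ ∀ s ∈ A, ∀ t ∈ A, s ≠ t → 1 ≤ |s - t| := by
    intro m A hA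
    rw [hFdef] at hA
    simp only [mem_image, mem_range] at hA
    obtain ⟨i, hi, rfl⟩ := hA
    refine ⟨?_, ?_⟩
    · rw [hcard, ← pow_mul]
      exact Nat.pow_le_pow_right (by norm_num) (by rw [mul_comm m B]; omega)
    · intro u hu t ht hut
      simp only [mem_image, mem_range] at hu ht
      obtain ⟨k, _, rfl⟩ := hu
      obtain ⟨l, _, rfl⟩ := ht
      exact hsep k l fun h => hut (by rw [h])
  have hsum : ∀ δ : ℝ, 0 < δ → Summable fun m : ℕ => ((F m).card : ℝ) * (2 : ℝ) ^ (-(δ * m)) := by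
    intro δ hδ
    set r : ℝ := (2 : ℝ) ^ (-δ) with hr
    have hr0 : 0 < r := by positivity
    have hr1 : r < 1 := Real.rpow_lt_one_of_one_lt_of_neg one_lt_two (by linarith)
    have h1 : Summable fun m : ℕ => (m : ℝ) ^ 1 * r ^ m :=
      summable_pow_mul_geometric_of_norm_lt_one 1 (by rw [Real.norm_of_nonneg hr0.le]; exact hr1)
    have h2 : Summable fun m : ℕ => r ^ m := summable_geometric_of_lt_one hr0.le hr1
    refine Summable.of_nonneg_of_le (fun m => by positivity) (fun m => ?_) ((h1.mul_left (B : ℝ)).add h2)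
    have h3 : (2 : ℝ) ^ (-(δ * m)) = r ^ m := by
      rw [hr, ← Real.rpow_natCast, ← Real.rpow_mul (by norm_num)]
      congr 1
      ring
    rw [h3]
    have h4 : ((F m).card : ℝ) ≤ B * m + 1 := by
      have := (card_image_le (s := range (B * m + 1)) (f := fun i => (range (2 ^ i)).image s))
      rw [card_range] at this
      exact_mod_cast this
    calc ((F m).card : ℝ) * r ^ m ≤ (B * m + 1) * r ^ m := mul_le_mul_of_nonneg_right h4 (by positivity)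
      _ = _ := by ring
  filter_upwards [part1 B F hF hsum] with x hx hx1 ε hε
  obtain ⟨m₀, hm₀⟩ := eventually_atTop.1 (hx hx1 (ε / 2) (by linarith))
  have hlarge : ∀ᶠ N : ℕ in atTop, 8 * (2 : ℝ) ^ (ε / 2) ≤ (N : ℝ) ^ (ε / 2) :=
    ((tendsto_rpow_atTop (show 0 < ε / 2 by linarith)).comp tendsto_natCast_atTop_atTop).eventually_ge_atTop _
  filter_upwards [hlarge, eventually_ge_atTop (2 ^ m₀), eventually_ge_atTop 2] with N g1 g2 g3 K hK
  rcases Nat.eq_zero_or_pos K with h0 | hKpos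
  · subst h0
    intro a v _
    simp only [range_zero, image_empty, sum_empty, card_empty, Nat.cast_zero, mul_zero, le_refl, true_and]
    intro R _ E hE _
    have hE0 : E = ∅ := Finset.subset_empty.1 hE
    rw [hE0, card_empty, Nat.cast_zero, mul_zero]
  set m : ℕ := Nat.clog 2 N with hm
  set i : ℕ := Nat.clog 2 K with hi
  have hNm : N ≤ 2 ^ m := Nat.le_pow_clog one_lt_two N
  have hmN : 2 ^ m ≤ 2 * N := by
    have h1 : 2 ^ (m - 1) < N := Nat.pow_pred_clog_lt_self one_lt_two (by omega)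
    have h2 : 0 < m := Nat.clog_pos one_lt_two g3
    have h3 : 2 ^ m = 2 * 2 ^ (m - 1) := by
      rw [← pow_succ']
      congr 1
      omega
    omega
  have hKi : K ≤ 2 ^ i := Nat.le_pow_clog one_lt_two K
  have hiK : 2 ^ i ≤ 2 * K := by
    rcases Nat.lt_or_ge K 2 with h | h
    · have : K = 1 := by omega
      rw [hi, this]
      simp
    have h1 : 2 ^ (i - 1) < K := Nat.pow_pred_clog_lt_self one_lt_two (by omega)
    have h2 : 0 < i := Nat.clog_pos one_lt_two h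
    have h3 : 2 ^ i = 2 * 2 ^ (i - 1) := by
      rw [← pow_succ']
      congr 1
      omega
    omega
  have him : i ≤ B * m := by
    rw [hi]
    apply Nat.clog_le_of_le_pow
    calc K ≤ N ^ B := hK
      _ ≤ (2 ^ m) ^ B := Nat.pow_le_pow_left hNm B
      _ = 2 ^ (B * m) := by rw [← pow_mul, mul_comm]
  have hmm : m₀ ≤ m := by
    have h1 : 2 ^ m₀ ≤ 2 ^ m := g2.trans hNm
    exact (Nat.pow_le_pow_iff_right one_lt_two).1 h1
  have hmem : (range (2 ^ i)).image s ∈ F m := by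
    rw [hFdef]
    exact mem_image.2 ⟨i, mem_range.2 (by omega), rfl⟩
  refine selfBound_of (by omega) fun a v ha => ?_
  set a' : ℕ → ℂ := fun n => if n ≤ N then a n else 0 with ha'
  have ha'1 : ∀ n, ‖a' n‖ ≤ 1 := by
    intro n
    rw [ha']
    simp only
    split_ifs
    · exact ha n
    · simp
  have hmain := (hm₀ m hmm _ hmem a' v ha'1).1
  rw [hcard] at hmain
  rw [hcard]
  have hsub : (range K).image s ⊆ (range (2 ^ i)).image s := image_subset_image (range_subset_range.2 hKi)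
  have hle : ∑ u ∈ (range K).image s, ∑ t ∈ (range K).image s, D2 N a (v + x * (t - u)) ≤
      ∑ u ∈ (range (2 ^ i)).image s, ∑ t ∈ (range (2 ^ i)).image s, D2 (2 ^ m) a' (v + x * (t - u)) := by
    simp only [ha', D2_ext hNm]
    refine (sum_le_sum fun u _ => sum_le_sum_of_subset_of_nonneg hsub fun t _ _ => D2_nonneg _ _ _).trans ?_
    exact sum_le_sum_of_subset_of_nonneg hsub fun u _ _ => sum_nonneg fun t _ => D2_nonneg _ _ _
  refine hle.trans (hmain.trans ?_)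
  have hN0 : (0 : ℝ) < N := by exact_mod_cast (by omega : 0 < N)
  have hK0 : (0 : ℝ) < K := by exact_mod_cast hKpos
  have b1 : ((2 ^ m : ℕ) : ℝ) ≤ 2 * N := by exact_mod_cast hmN
  have b2 : ((2 ^ i : ℕ) : ℝ) ≤ 2 * K := by exact_mod_cast hiK
  have b0 : (0 : ℝ) ≤ ((2 ^ m : ℕ) : ℝ) := Nat.cast_nonneg _
  have b3 : (0 : ℝ) ≤ ((2 ^ i : ℕ) : ℝ) := Nat.cast_nonneg _
  calc ((2 ^ m : ℕ) : ℝ) ^ (ε / 2) * (((2 ^ m : ℕ) : ℝ) + ((2 ^ i : ℕ) : ℝ)) * ((2 ^ m : ℕ) : ℝ) * ((2 ^ i : ℕ) : ℝ)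
      ≤ (2 * (N : ℝ)) ^ (ε / 2) * (2 * N + 2 * K) * (2 * N) * (2 * K) := by
        gcongr
    _ = (8 * (2 : ℝ) ^ (ε / 2)) * ((N : ℝ) ^ (ε / 2) * ((N + K) * N * K)) := by
        rw [Real.mul_rpow (by norm_num) hN0.le]
        ring
    _ ≤ (N : ℝ) ^ (ε / 2) * ((N : ℝ) ^ (ε / 2) * ((N + K) * N * K)) := by
        apply mul_le_mul_of_nonneg_right g1 (by positivity)
    _ = (N : ℝ) ^ ε * (N + K) * N * K := by
        have e1 : (N : ℝ) ^ ε = (N : ℝ) ^ (ε / 2) * (N : ℝ) ^ (ε / 2) := by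
          rw [← Real.rpow_add hN0]
          congr 1
          ring
        rw [e1]
        ring

end Pool.Agent.Results.MP_71ac24_nt.AlmostEveryDilate
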