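import Mathlib
import Pool.Agent.V1181.DBd
set_option autoImplicit false

/-!
# Montgomery's large values conjecture: independent twists of the blocks of arbitrary coefficients

Let `a_n`, `1 ≤ n ≤ N`, be arbitrary coefficients of modulus at most one and let `J_1, …, J_m` be
disjoint sets of integers of `[1, N]` with at most `M` elements, `M ≥ 1`. We replace `a_n` by
`a_n n^{i y_j}` for `n` in `J_j` (and by `0` outside of all blocks), where the `y_j` are independent
random numbers with a common law which lives on `[-B N, B N]` and has a density at most `B / N`, for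
instance the uniform law of `[0, N]`; so the part of the Dirichlet polynomial on `J_j` is translated by
`y_j`. We show that with probability at least `1 - exp(-s)` the new polynomial `D_y` satisfies, with
`l = s + log(2N)`,

* `|D_y(t)| ≤ C (√(N l) + M l)` for all real `|t| ≤ N^A`;
* `∑_{t ∈ S} |D_y(t)|² ≤ C (N + M²) l² |S|` for all finite sets `S` of real numbers `|t| ≤ N^A`.

So there are no large values at all for `M ≤ √N`; for `M = 1` (random coefficients) the first bound is
the classical `√(N log N)`, and it is the same for blocks of `√(N / log N)` elements.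

Proof: Bernstein's inequality, where the variances are bounded by a mean value theorem, and a net.
-/

namespace Pool.Agent.Results.MP_71ac24_nt.TwistedBlocks

open MeasureTheory Finset Complex
open scoped ENNReal

/-- `D(t) = ∑_{n ≤ N} a_n n^{it}` -/
noncomputable def D (N : ℕ) (a : ℕ → ℂ) (t : ℝ) : ℂ :=
  ∑ n ∈ Icc 1 N, a n * cexp (I * (t : ℂ) * (Real.log (n : ℝ) : ℂ))

open Classical in
/-- the coefficient `a_n n^{i y_j}` if `n` is in the block `J_j`, and `0` outside of the blocks (the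
blocks are disjoint) -/
noncomputable def twist {m : ℕ} (J : Fin m → Finset ℕ) (a : ℕ → ℂ) (y : Fin m → ℝ) (n : ℕ) : ℂ :=
  ∑ j, if n ∈ J j then a n * cexp (I * (y j : ℂ) * (Real.log (n : ℝ) : ℂ)) else 0

/-- disjoint sets of integers of `[1, N]` with at most `M` elements -/
def Blocks {m : ℕ} (N : ℕ) (M : ℝ) (J : Fin m → Finset ℕ) : Prop :=
  (∀ j, J j ⊆ Icc 1 N) ∧ (∀ i j, i ≠ j → Disjoint (J i) (J j)) ∧
    ∀ j, ((J j).card : ℝ) ≤ M

/-- a probability measure on `[-B N, B N]` with density at most `B / N` -/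
def Spread (B : ℝ) (N : ℕ) (ρ : Measure ℝ) : Prop :=
  IsProbabilityMeasure ρ ∧ ρ (Set.Icc (-(B * N)) (B * N))ᶜ = 0 ∧
    ρ ≤ ENNReal.ofReal (B / N) • (volume : Measure ℝ)

/-- the bounds for the polynomial with the coefficients `a` -/
def Bounds (C A M l : ℝ) (N : ℕ) (a : ℕ → ℂ) : Prop :=
  (∀ t : ℝ, |t| ≤ (N : ℝ) ^ A → ‖D N a t‖ ≤ C * (Real.sqrt (N * l) + M * l)) ∧
  ∀ S : Finset ℝ, (∀ t ∈ S, |t| ≤ (N : ℝ) ^ A) →
    ∑ t ∈ S, ‖D N a t‖ ^ 2 ≤ C * ((N : ℝ) + M ^ 2) * l ^ 2 * S.card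

theorem D_twist {m N : ℕ} {M : ℝ} {J : Fin m → Finset ℕ} (hJ : Blocks N M J) (a : ℕ → ℂ)
    (y : Fin m → ℝ) (t : ℝ) :
    D N (twist J a y) t = ∑ j, ∑ n ∈ J j, a n * Pool.Agent.V1181.DB.ph (t + y j) n := by
  classical
  unfold D twist
  simp only [Finset.sum_mul]
  rw [Finset.sum_comm]
  refine Finset.sum_congr rfl fun j _ => ?_
  have h1 : ∀ n, (if n ∈ J j then a n * cexp (I * (y j : ℂ) * (Real.log (n : ℝ) : ℂ)) else 0) *
      cexp (I * (t : ℂ) * (Real.log (n : ℝ) : ℂ)) =
      if n ∈ J j then a n * Pool.Agent.V1181.DB.ph (t + y j) n else 0 := by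
    intro n
    split_ifs
    · rw [Pool.Agent.V1181.DB.ph_add]
      unfold Pool.Agent.V1181.DB.ph
      ring
    · rw [zero_mul]
  simp only [h1]
  rw [Finset.sum_ite_mem, Finset.inter_eq_right.2 (hJ.1 j)]

/-- For all `A` and `B` there is a constant `C` such that for all `N ≥ 1` and `M ≥ 1`, all blocks,
all laws and all coefficients bounded by one, and all `s ≥ 0`, the bounds hold for the randomly twisted
polynomial, with `l = s + log(2N)`, with probability at least `1 - exp(-s)`. -/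
theorem result (A B : ℝ) : ∃ C : ℝ, 0 < C ∧
    ∀ (N m : ℕ) (M : ℝ) (J : Fin m → Finset ℕ) (ρ : Measure ℝ) (a : ℕ → ℂ),
      1 ≤ N → 1 ≤ M → Blocks N M J → Spread B N ρ → (∀ n, ‖a n‖ ≤ 1) → ∀ s : ℝ, 0 ≤ s →
        (Measure.pi fun _ => ρ)
          {y | ¬ Bounds C A M (s + Real.log (2 * N)) N (twist J a y)} ≤
            ENNReal.ofReal (Real.exp (-s)) := by
  obtain ⟨C, hC0, hC⟩ := Pool.Agent.V1181.DB.sup_bound (max A 0) (max B 1) (le_max_right _ _)
    (le_max_right _ _)
  refine ⟨max C (4 * C ^ 2), lt_max_of_lt_left hC0, ?_⟩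
  intro N m M J ρ a hN hM hJ hρ ha s hs
  obtain ⟨hρ1, hρ2, hρ3⟩ := hρ
  have hN0 : (0 : ℝ) < N := by exact_mod_cast (by omega : 0 < N)
  have hN1 : (1 : ℝ) ≤ N := by exact_mod_cast hN
  have hlog2 : (0.69 : ℝ) < Real.log 2 := by
    have := Real.log_two_gt_d9
    linarith
  set l : ℝ := s + Real.log (2 * N) with hl
  have hl0 : 0.69 < l := by
    have h1 : Real.log 2 ≤ Real.log (2 * N) := Real.log_le_log (by norm_num) (by linarith)
    rw [hl]
    linarith
  have hlpos : 0 < l := by linarith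
  have hρ2' : ρ (Set.Icc (-(max B 1 * N)) (max B 1 * N))ᶜ = 0 := by
    refine measure_mono_null (Set.compl_subset_compl.2 ?_) hρ2
    have h1 : B * N ≤ max B 1 * N := mul_le_mul_of_nonneg_right (le_max_left _ _) hN0.le
    exact Set.Icc_subset_Icc (by linarith) h1
  have hρ3' : ρ ≤ ENNReal.ofReal (max B 1 / N) • (volume : Measure ℝ) := by
    refine hρ3.trans ?_
    intro s
    rw [Measure.smul_apply, Measure.smul_apply, smul_eq_mul, smul_eq_mul]
    refine mul_le_mul_left ?_ _
    apply ENNReal.ofReal_le_ofReal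
    exact div_le_div_of_nonneg_right (le_max_left _ _) hN0.le
  have h1 := hC N hN ρ hρ2' hρ3' m J hJ.1 hJ.2.1 M hM hJ.2.2 a ha s hs
  have hsub : {y : Fin m → ℝ | ¬ Bounds (max C (4 * C ^ 2)) A M l N (twist J a y)} ⊆
      {y : Fin m → ℝ | ∃ t : ℝ, |t| ≤ (N : ℝ) ^ (max A 0) ∧
        C * (Real.sqrt (N * l) + M * l) <
          ‖∑ j, ∑ n ∈ J j, a n * Pool.Agent.V1181.DB.ph (t + y j) n‖} := by
    intro y hy
    rw [Set.mem_ofPred_eq] at hy ⊢
    by_contra hcon
    apply hy
    push Not at hcon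
    have hAA : (N : ℝ) ^ A ≤ (N : ℝ) ^ (max A 0) :=
      Real.rpow_le_rpow_of_exponent_le hN1 (le_max_left _ _)
    have hsup : ∀ t : ℝ, |t| ≤ (N : ℝ) ^ A →
        ‖D N (twist J a y) t‖ ≤ C * (Real.sqrt (N * l) + M * l) := by
      intro t ht
      rw [D_twist hJ]
      exact hcon t (ht.trans hAA)
    have hq0 : 0 ≤ Real.sqrt (N * l) + M * l := by positivity
    constructor
    · intro t ht
      exact (hsup t ht).trans (mul_le_mul_of_nonneg_right (le_max_left _ _) hq0)
    · intro S hS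
      have h2 : (Real.sqrt (N * l) + M * l) ^ 2 ≤ 4 * (((N : ℝ) + M ^ 2) * l ^ 2) := by
        have e1 : Real.sqrt (N * l) ^ 2 = N * l := Real.sq_sqrt (by positivity)
        have e2 : (Real.sqrt (N * l) + M * l) ^ 2 ≤ 2 * (N * l) + 2 * (M * l) ^ 2 := by
          nlinarith [sq_nonneg (Real.sqrt (N * l) - M * l)]
        have e3 : (N : ℝ) * l ≤ 2 * (N * l ^ 2) := by nlinarith [mul_pos hN0 hlpos]
        have e4 : (M * l) ^ 2 = M ^ 2 * l ^ 2 := by ring
        have e5 : 0 ≤ M ^ 2 * l ^ 2 := by positivity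
        nlinarith
      calc ∑ t ∈ S, ‖D N (twist J a y) t‖ ^ 2
          ≤ ∑ _t ∈ S, 4 * C ^ 2 * (((N : ℝ) + M ^ 2) * l ^ 2) := by
            refine Finset.sum_le_sum fun t ht => ?_
            calc ‖D N (twist J a y) t‖ ^ 2 ≤ (C * (Real.sqrt (N * l) + M * l)) ^ 2 :=
                  pow_le_pow_left₀ (norm_nonneg _) (hsup t (hS t ht)) 2
              _ = C ^ 2 * (Real.sqrt (N * l) + M * l) ^ 2 := by ring
              _ ≤ C ^ 2 * (4 * (((N : ℝ) + M ^ 2) * l ^ 2)) :=
                  mul_le_mul_of_nonneg_left h2 (by positivity)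
              _ = _ := by ring
        _ = 4 * C ^ 2 * (((N : ℝ) + M ^ 2) * l ^ 2 * S.card) := by
            rw [Finset.sum_const, nsmul_eq_mul]
            ring
        _ ≤ max C (4 * C ^ 2) * (((N : ℝ) + M ^ 2) * l ^ 2 * S.card) :=
            mul_le_mul_of_nonneg_right (le_max_right _ _) (by positivity)
        _ = _ := by ring
  refine (measure_mono hsub).trans ?_
  rw [← ENNReal.ofReal_toReal (measure_ne_top (Measure.pi fun _ : Fin m => ρ)
    {y : Fin m → ℝ | ∃ t : ℝ, |t| ≤ (N : ℝ) ^ (max A 0) ∧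
        C * (Real.sqrt (N * l) + M * l) <
          ‖∑ j, ∑ n ∈ J j, a n * Pool.Agent.V1181.DB.ph (t + y j) n‖})]
  exact ENNReal.ofReal_le_ofReal h1

end Pool.Agent.Results.MP_71ac24_nt.TwistedBlocks
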